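import Mathlib

/-!
# Sets of natural numbers which are closed under reduction of their elements
-/

set_option autoImplicit false

namespace Pool.Agent.Helper59.LS

open Filter Polynomial

/-- The next element of `S` after `n`. -/
noncomputable def nx (S : Set ℕ) (n : ℕ) : ℕ := sInf {m | m ∈ S ∧ n < m}

/-- The number in `[i, n)` congruent to `n'` modulo `n - i`. -/
def rs (n' n i : ℕ) : ℕ := i + (n' - i) % (n - i)

section nx

variable {S : Set ℕ}

theorem nx_spec (hS : S.Infinite) (n : ℕ) : nx S n ∈ S ∧ n < nx S n := by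
  obtain ⟨m, hm, hnm⟩ := hS.exists_gt n
  exact Nat.sInf_mem (s := {m | m ∈ S ∧ n < m}) ⟨m, hm, hnm⟩

theorem nx_mem (hS : S.Infinite) (n : ℕ) : nx S n ∈ S := (nx_spec hS n).1

theorem lt_nx (hS : S.Infinite) (n : ℕ) : n < nx S n := (nx_spec hS n).2

theorem nx_le {n m : ℕ} (hm : m ∈ S) (h : n < m) : nx S n ≤ m := Nat.sInf_le ⟨hm, h⟩

end nx

section rs

theorem rs_ge (n' n i : ℕ) : i ≤ rs n' n i := Nat.le_add_right _ _

theorem rs_lt {n' n i : ℕ} (h : i < n) : rs n' n i < n := by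
  unfold rs
  have := Nat.mod_lt (n' - i) (show 0 < n - i by omega)
  omega

theorem rs_eq {n' n i : ℕ} (h : i < n) (h' : n ≤ n') :
    n' = (n - i) * ((n' - i) / (n - i)) + rs n' n i := by
  unfold rs
  have := Nat.div_add_mod (n' - i) (n - i)
  omega

end rs

section ultra

variable (U : Ultrafilter ℕ)

theorem eventually_const_or (f : ℕ → ℕ) :
    (∃ a, ∀ᶠ n in (U : Filter ℕ), f n = a) ∨ ∀ B, ∀ᶠ n in (U : Filter ℕ), B < f n := by
  by_cases h : ∀ B, ∀ᶠ n in (U : Filter ℕ), B < f n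
  · exact Or.inr h
  · left
    obtain ⟨B, hB⟩ := not_forall.1 h
    have h1 : ∀ᶠ n in (U : Filter ℕ), ∃ a ∈ Set.Iic B, f n = a := by
      have : ∀ᶠ n in (U : Filter ℕ), ¬ B < f n := by
        rw [Ultrafilter.eventually_not]; exact hB
      filter_upwards [this] with n hn
      exact ⟨f n, by simpa using hn, rfl⟩
    rw [Ultrafilter.eventually_exists_mem_iff (Set.finite_Iic B)] at h1
    obtain ⟨a, -, ha⟩ := h1
    exact ⟨a, ha⟩

theorem eventually_const {f : ℕ → ℕ} {B : ℕ} (h : ∀ᶠ n in (U : Filter ℕ), f n ≤ B) :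
    ∃ a, a ≤ B ∧ ∀ᶠ n in (U : Filter ℕ), f n = a := by
  rcases eventually_const_or U f with ⟨a, ha⟩ | h'
  · refine ⟨a, ?_, ha⟩
    obtain ⟨n, h1, h2⟩ := (h.and ha).exists
    omega
  · exfalso
    obtain ⟨n, h1, h2⟩ := (h.and (h' B)).exists
    omega

theorem exists_ultra {T : Set ℕ} (hT : T.Infinite) :
    ∃ U : Ultrafilter ℕ, (∀ᶠ n in (U : Filter ℕ), n ∈ T) ∧ (U : Filter ℕ) ≤ atTop := by
  have hne : (cofinite ⊓ 𝓟 T).NeBot := by
    rw [cofinite_inf_principal_neBot_iff]
    exact hT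
  refine ⟨Ultrafilter.of (cofinite ⊓ 𝓟 T), ?_, ?_⟩
  · have := Ultrafilter.of_le (cofinite ⊓ 𝓟 T)
    exact this (mem_inf_of_right (mem_principal_self T))
  · rw [← Nat.cofinite_eq_atTop]
    exact (Ultrafilter.of_le _).trans inf_le_left

theorem infinite_of_eventually {U : Ultrafilter ℕ} (hU : (U : Filter ℕ) ≤ atTop) {p : ℕ → Prop}
    (h : ∀ᶠ n in (U : Filter ℕ), p n) : {n | p n}.Infinite := by
  intro hf
  have h1 : ∀ᶠ n in (U : Filter ℕ), n ∉ {n | p n} := by
    apply hU
    rw [← Nat.cofinite_eq_atTop]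
    exact hf.compl_mem_cofinite
  obtain ⟨n, h1, h2⟩ := (h1.and h).exists
  exact h1 h2

end ultra

section main

variable {S : Set ℕ} (hS : S.Infinite) {K₀ : ℕ}
  (h0 : ∀ D, 0 < D → {n | n ∈ S ∧ n + D ∈ S}.Finite)
  (hP : ∀ G : Finset ℕ, (∀ i ∈ G, i ∈ S) → G.card = K₀ + 1 →
    ∃ n₀, ∀ n ∈ S, ∀ n' ∈ S, n₀ ≤ n → n < n' → ∃ i ∈ G, rs n' n i ∈ S)

include hS hP in
/-- The exceptional set is finite. -/
theorem exc_finite {U : Ultrafilter ℕ} (hU : (U : Filter ℕ) ≤ atTop)
    (hUS : ∀ᶠ n in (U : Filter ℕ), n ∈ S) :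
    {i | i ∈ S ∧ ¬ ∀ᶠ n in (U : Filter ℕ), rs (nx S n) n i ∈ S}.Finite := by
  by_contra hinf
  obtain ⟨G, hG, hcard⟩ := Set.Infinite.exists_subset_card_eq hinf (K₀ + 1)
  obtain ⟨n₀, hn₀⟩ := hP G (fun i hi => (hG hi).1) hcard
  have h1 : ∀ᶠ n in (U : Filter ℕ), ∀ i ∈ G, rs (nx S n) n i ∉ S := by
    rw [Filter.eventually_all_finset]
    intro i hi
    rw [Ultrafilter.eventually_not]
    exact (hG hi).2
  have h2 : ∀ᶠ n in (U : Filter ℕ), n₀ ≤ n := hU (eventually_ge_atTop n₀)
  obtain ⟨n, ⟨h1, h2⟩, h3⟩ := ((h1.and h2).and hUS).exists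
  obtain ⟨i, hi, h4⟩ := hn₀ n h3 (nx S n) (nx_mem hS n) h2 (lt_nx hS n)
  exact h1 i hi h4

include hS h0 hP in
/-- The case of infinitely many small gaps. -/
theorem case_lin {κ : ℕ} (hC : {n | n ∈ S ∧ nx S n ≤ κ * n}.Infinite) :
    ∃ (P : ℚ[X]) (E : Set ℕ), E.Finite ∧ {n | n ∈ S ∧ (nx S n : ℚ) = P.eval (n : ℚ)}.Infinite ∧
      ∀ i ∈ S, i ∉ E → ∃ m ∈ S, (m : ℚ) = P.eval (i : ℚ) := by
  obtain ⟨U, hUT, hU⟩ := exists_ultra hC
  have hUS : ∀ᶠ n in (U : Filter ℕ), n ∈ S := hUT.mono fun n hn => hn.1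
  have hEf := exc_finite hS hP hU hUS
  set E := {i | i ∈ S ∧ ¬ ∀ᶠ n in (U : Filter ℕ), rs (nx S n) n i ∈ S} with hE
  have hlarge : ∀ k : ℕ, ∀ᶠ n in (U : Filter ℕ), k ≤ n := fun k => hU (eventually_ge_atTop k)
  have hq : ∀ i : ℕ, ∃ a, a ≤ 2 * κ ∧
      ∀ᶠ n in (U : Filter ℕ), (nx S n - i) / (n - i) = a := by
    intro i
    apply eventually_const
    filter_upwards [hUT, hlarge (2 * i + 1)] with n hn hi
    apply Nat.le_of_lt_succ
    rw [Nat.div_lt_iff_lt_mul (by omega)]
    have h1 := hn.2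
    have h2 : n ≤ 2 * (n - i) := by omega
    calc nx S n - i ≤ nx S n := Nat.sub_le _ _
      _ ≤ κ * n := h1
      _ ≤ κ * (2 * (n - i)) := Nat.mul_le_mul_left _ h2
      _ = 2 * κ * (n - i) := by ring
      _ < (2 * κ + 1) * (n - i) := by
        apply Nat.mul_lt_mul_of_pos_right (by omega) (by omega)
  choose q hqC hq using hq
  -- two indices with the same quotient
  have hinf : (S \ E).Infinite := hS.sdiff hEf
  obtain ⟨i, hi, j, hj, hij, hqij⟩ : ∃ i ∈ S \ E, ∃ j ∈ S \ E, i ≠ j ∧ q i = q j :=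
    hinf.exists_ne_map_eq_of_mapsTo (f := q) (t := Set.Iic (2 * κ)) (fun a _ => hqC a)
      (Set.finite_Iic _)
  wlog hlt : i < j generalizing i j
  · exact this j hj i hi (Ne.symm hij) hqij.symm (by omega)
  have hmem : ∀ i ∈ S \ E, ∀ᶠ n in (U : Filter ℕ), rs (nx S n) n i ∈ S := by
    intro i hi
    by_contra hcon
    exact hi.2 ⟨hi.1, hcon⟩
  have heq : ∀ i : ℕ, ∀ᶠ n in (U : Filter ℕ), nx S n = (n - i) * q i + rs (nx S n) n i ∧
      i < n := by
    intro i
    filter_upwards [hq i, hlarge (i + 1)] with n hn hi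
    refine ⟨?_, by omega⟩
    rw [← hn]
    exact rs_eq (by omega) (lt_nx hS n).le
  have hq1 : ∀ i : ℕ, 1 ≤ q i := by
    intro i
    obtain ⟨n, h1, h2⟩ := ((hq i).and (hlarge (i + 1))).exists
    rw [← h1]
    apply Nat.div_pos _ (by omega)
    have := lt_nx hS n
    omega
  -- the residue is bounded
  obtain ⟨c, hc⟩ : ∃ c, ∀ᶠ n in (U : Filter ℕ), rs (nx S n) n i = c := by
    have hfin := h0 (q i * (j - i)) (Nat.mul_pos (hq1 i) (by omega))
    obtain ⟨B, hB⟩ := hfin.bddAbove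
    obtain ⟨a, -, ha⟩ := eventually_const U (f := fun n => rs (nx S n) n i) (B := B) (by
      filter_upwards [heq i, heq j, hmem i hi, hmem j hj] with n h1 h2 h3 h4
      apply hB
      refine ⟨h3, ?_⟩
      have : rs (nx S n) n i + q i * (j - i) = rs (nx S n) n j := by
        obtain ⟨h1, h1'⟩ := h1
        obtain ⟨h2, h2'⟩ := h2
        rw [← hqij] at h2
        obtain ⟨u, rfl⟩ : ∃ u, j = i + u := ⟨j - i, by omega⟩
        obtain ⟨v, rfl⟩ : ∃ v, n = i + u + v := ⟨n - (i + u), by omega⟩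
        have e1 : i + u + v - i = u + v := by omega
        have e2 : i + u + v - (i + u) = v := by omega
        have e3 : i + u - i = u := by omega
        rw [e1] at h1
        rw [e2] at h2
        rw [e3]
        nlinarith
      rw [this]
      exact h4)
    exact ⟨a, ha⟩
  -- the polynomial
  have hnx : ∀ᶠ n in (U : Filter ℕ), (nx S n : ℤ) = q i * n + (c - q i * i) := by
    filter_upwards [heq i, hc] with n h1 h2
    obtain ⟨h1, h1'⟩ := h1
    rw [h2] at h1
    rw [h1]
    push_cast [Nat.cast_sub h1'.le]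
    ring
  refine ⟨C (q i : ℚ) * X + C ((c : ℚ) - q i * i), E, hEf, ?_, ?_⟩
  · apply infinite_of_eventually hU
    filter_upwards [hUS, hnx] with n h1 h2
    refine ⟨h1, ?_⟩
    simp only [eval_add, eval_mul, eval_C, eval_X]
    have : ((nx S n : ℤ) : ℚ) = ((q i * n + (c - q i * i) : ℤ) : ℚ) := by rw [h2]
    push_cast at this
    exact this
  · intro k hk hkE
    have hk' : k ∈ S \ E := ⟨hk, hkE⟩
    -- the residue of k
    have hres : ∀ᶠ n in (U : Filter ℕ), (rs (nx S n) n k : ℤ) =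
        ((q i : ℤ) - q k) * n + (c - q i * i + q k * k) := by
      filter_upwards [heq k, hnx] with n h1 h2
      obtain ⟨h1, h1'⟩ := h1
      have h3 : (nx S n : ℤ) = (n - k) * q k + rs (nx S n) n k := by
        conv_lhs => rw [h1]
        push_cast [Nat.cast_sub h1'.le]
        ring
      rw [h2] at h3
      linarith
    have hlk : ∀ b : ℤ, ∀ᶠ n : ℕ in (U : Filter ℕ), b < (n : ℤ) := by
      intro b
      filter_upwards [hlarge (b.toNat + 1)] with n hn
      omega
    set b : ℤ := c - q i * i + q k * k with hb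
    have hqk : q k = q i := by
      rcases lt_trichotomy (q k) (q i) with hlt' | heq' | hgt
      · exfalso
        -- q k < q i
        have h5 : ∀ᶠ n : ℕ in (U : Filter ℕ), ((q i : ℤ) - q k - 1) * n + b < 0 := by
          filter_upwards [hres, heq k] with n h1 h2
          have := rs_lt (n' := nx S n) h2.2
          have h3 : (rs (nx S n) n k : ℤ) < n := by exact_mod_cast this
          rw [h1] at h3
          linarith
        have h6 : b < 0 := by
          obtain ⟨n, h1⟩ := h5.exists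
          have h2 : 0 ≤ ((q i : ℤ) - q k - 1) * n := by
            apply mul_nonneg _ (by positivity)
            have : (q k : ℤ) < q i := by exact_mod_cast hlt'
            omega
          linarith
        have h7 : (q i : ℤ) - q k = 1 := by
          by_contra hne
          have h8 : (2 : ℤ) ≤ (q i : ℤ) - q k := by
            have : (q k : ℤ) < q i := by exact_mod_cast hlt'
            omega
          obtain ⟨n, h1, h2⟩ := (h5.and (hlk (-b))).exists
          have h9 : (n : ℤ) ≤ ((q i : ℤ) - q k - 1) * n := by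
            have : (1 : ℤ) * n ≤ ((q i : ℤ) - q k - 1) * n := by
              apply mul_le_mul_of_nonneg_right (by omega) (by positivity)
            linarith
          linarith
        -- then `n - residue` is a positive constant
        have hfin := h0 (-b).toNat (by omega)
        have h10 : ∀ᶠ n in (U : Filter ℕ), rs (nx S n) n k ∈
            {m | m ∈ S ∧ m + (-b).toNat ∈ S} := by
          filter_upwards [hres, hmem k hk', hUS] with n h1 h2 h3
          refine ⟨h2, ?_⟩
          have : rs (nx S n) n k + (-b).toNat = n := by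
            rw [h7] at h1
            omega
          rw [this]
          exact h3
        obtain ⟨B, hB⟩ := hfin.bddAbove
        obtain ⟨n, ⟨h11, h12⟩, h13⟩ := ((h10.and hres).and (hlk (B - b))).exists
        have h14 := hB h11
        rw [h7] at h12
        have : (rs (nx S n) n k : ℤ) ≤ B := by exact_mod_cast h14
        linarith
      · exact heq'
      · exfalso
        obtain ⟨n, h1, h2⟩ := (hres.and (hlk b)).exists
        have h3 : (0 : ℤ) ≤ rs (nx S n) n k := by positivity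
        have h4 : ((q i : ℤ) - q k) * n ≤ -1 * n := by
          apply mul_le_mul_of_nonneg_right _ (by positivity)
          have : (q i : ℤ) < q k := by exact_mod_cast hgt
          omega
        rw [h1] at h3
        linarith
    obtain ⟨n, h1, h2⟩ := (hres.and (hmem k hk')).exists
    refine ⟨_, h2, ?_⟩
    rw [hqk] at h1 hb
    simp only [eval_add, eval_mul, eval_C, eval_X]
    have : ((rs (nx S n) n k : ℤ) : ℚ) = (((q i : ℤ) - q i) * n + b : ℤ) := by rw [h1]
    rw [hb] at this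
    push_cast at this
    rw [this]
    ring

/-- The base `n` digit sum is the number. -/
theorem digit_sum (n m M : ℕ) :
    ∑ r ∈ Finset.range M, (m / n ^ r % n) * n ^ r + n ^ M * (m / n ^ M) = m := by
  induction M with
  | zero => simp
  | succ M ih =>
    rw [Finset.sum_range_succ]
    have h1 : m / n ^ M = n * (m / n ^ (M + 1)) + m / n ^ M % n := by
      rw [pow_succ, ← Nat.div_div_eq_div_mul]
      exact (Nat.div_add_mod _ _).symm
    have h2 : n ^ (M + 1) * (m / n ^ (M + 1)) + (m / n ^ M % n) * n ^ M =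
        n ^ M * (m / n ^ M) := by
      conv_rhs => rw [h1]
      ring
    omega

/-- The polynomial of the digits. -/
noncomputable def dp (M n m : ℕ) : ℚ[X] :=
  ∑ r ∈ Finset.range M, C ((m / n ^ r % n : ℕ) : ℚ) * X ^ r

theorem dp_eval (M n m i : ℕ) :
    eval (i : ℚ) (dp M n m) = ((∑ r ∈ Finset.range M, (m / n ^ r % n) * i ^ r : ℕ) : ℚ) := by
  simp [dp, eval_finsetSum]

theorem dp_eval_self {M n m : ℕ} (h : m < n ^ M) : eval (n : ℚ) (dp M n m) = m := by
  rw [dp_eval]
  have h1 := digit_sum n m M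
  rw [Nat.div_eq_of_lt h, mul_zero, add_zero] at h1
  rw [h1]

theorem dp_natDegree (m' n m : ℕ) : (dp (m' + 1) n m).natDegree ≤ m' := by
  unfold dp
  apply natDegree_sum_le_of_forall_le
  intro r hr
  refine (natDegree_C_mul_X_pow_le _ _).trans ?_
  have := Finset.mem_range.1 hr
  omega

/-- The value of the digit polynomial at `i` is congruent to the residue. -/
theorem dp_residue {M n m i : ℕ} (hn : i < n) (hm : m < n ^ M) (hnm : n < m) :
    ∃ t : ℤ, ((∑ r ∈ Finset.range M, (m / n ^ r % n) * i ^ r : ℕ) : ℤ) =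
      rs m n i + t * ((n : ℤ) - i) := by
  have h1 : (m : ℤ) = ((∑ r ∈ Finset.range M, (m / n ^ r % n) * n ^ r : ℕ) : ℤ) := by
    have h1 := digit_sum n m M
    rw [Nat.div_eq_of_lt hm, mul_zero, add_zero] at h1
    rw [h1]
  have h2 : ((n : ℤ) - i) ∣ ((∑ r ∈ Finset.range M, (m / n ^ r % n) * n ^ r : ℕ) : ℤ) -
      ((∑ r ∈ Finset.range M, (m / n ^ r % n) * i ^ r : ℕ) : ℤ) := by
    rw [Nat.cast_sum, Nat.cast_sum, ← Finset.sum_sub_distrib]
    apply Finset.dvd_sum
    intro r _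
    rw [Nat.cast_mul, Nat.cast_mul, ← mul_sub, Nat.cast_pow, Nat.cast_pow]
    exact Dvd.dvd.mul_left (sub_dvd_pow_sub_pow _ _ _) _
  have h3 : ((n : ℤ) - i) ∣ (m : ℤ) - rs m n i := by
    have h4 := rs_eq hn hnm.le (n' := m)
    refine ⟨((m - i) / (n - i) : ℕ), ?_⟩
    have h5 : (m : ℤ) = (((n - i) * ((m - i) / (n - i)) + rs m n i : ℕ) : ℤ) := by
      rw [← h4]
    rw [Nat.cast_add, Nat.cast_mul, Nat.cast_sub hn.le] at h5
    linarith
  obtain ⟨a, ha⟩ := h2
  obtain ⟨b, hb⟩ := h3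
  refine ⟨b - a, ?_⟩
  rw [← h1] at ha
  linarith [mul_sub ((n : ℤ) - i) b a, mul_comm ((n : ℤ) - i) (b - a)]

theorem lag (J : Finset ℕ) (p : ℚ[X]) (hp : p.degree < J.card) (x : ℚ) :
    eval x p = ∑ j ∈ J, eval (j : ℚ) p *
      eval x (Lagrange.basis J (fun k : ℕ => (k : ℚ)) j) := by
  have hinj : Set.InjOn (fun k : ℕ => (k : ℚ)) (J : Set ℕ) := fun a _ b _ h => by
    simpa using h
  conv_lhs => rw [Lagrange.eq_interpolate hinj hp]
  rw [Lagrange.interpolate_apply, eval_finsetSum]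
  simp

theorem interp_eval (J : Finset ℕ) (c : ℕ → ℚ) (x : ℚ) :
    eval x (Lagrange.interpolate J (fun k : ℕ => (k : ℚ)) c) = ∑ j ∈ J, c j *
      eval x (Lagrange.basis J (fun k : ℕ => (k : ℚ)) j) := by
  rw [Lagrange.interpolate_apply, eval_finsetSum]
  simp

theorem basis_sum (J : Finset ℕ) (hJ : J.Nonempty) (x : ℚ) :
    ∑ j ∈ J, eval x (Lagrange.basis J (fun k : ℕ => (k : ℚ)) j) = 1 := by
  have hinj : Set.InjOn (fun k : ℕ => (k : ℚ)) (J : Set ℕ) := fun a _ b _ h => by
    simpa using h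
  rw [← eval_finsetSum, Lagrange.sum_basis hinj hJ, eval_one]

theorem ratio_zero {U : Ultrafilter ℕ}
    (hsp : ∀ κ : ℕ, {n | n ∈ S ∧ nx S n ≤ κ * n}.Finite) {f g : ℕ → ℕ}
    (hf : ∀ᶠ n in (U : Filter ℕ), f n ∈ S) (hg : ∀ᶠ n in (U : Filter ℕ), g n ∈ S)
    (hfg : ∀ᶠ n in (U : Filter ℕ), f n < g n)
    (hinf : ∀ B, ∀ᶠ n in (U : Filter ℕ), B < g n) :
    Tendsto (fun n => (f n : ℚ) / (g n : ℚ)) U (nhds 0) := by
  have hk : ∀ κ : ℕ, ∀ᶠ n in (U : Filter ℕ), κ * f n ≤ g n := by
    intro κ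
    obtain ⟨b, hb⟩ := (hsp κ).bddAbove
    filter_upwards [hf, hg, hfg, hinf (κ * b)] with n h1 h2 h3 h4
    by_cases h5 : nx S (f n) ≤ κ * f n
    · have h6 : f n ≤ b := hb ⟨h1, h5⟩
      exact (Nat.mul_le_mul_left κ h6).trans h4.le
    · have h6 : nx S (f n) ≤ g n := nx_le h2 h3
      omega
  rw [tendsto_order]
  constructor
  · intro a ha
    filter_upwards with n
    exact ha.trans_le (by positivity)
  · intro a ha
    obtain ⟨κ, hκ⟩ := exists_nat_gt (1 / a)
    filter_upwards [hk κ, hinf 0] with n h1 h2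
    have h3 : (0 : ℚ) < g n := by exact_mod_cast h2
    have h4 : (κ : ℚ) * f n ≤ g n := by exact_mod_cast h1
    have h5 : 0 < (κ : ℚ) := lt_trans (by positivity) hκ
    have h6 : 1 < a * κ := by
      rw [div_lt_iff₀ ha] at hκ
      linarith
    rw [div_lt_iff₀ h3]
    by_contra h7
    push Not at h7
    have h8 : (κ : ℚ) * (a * g n) ≤ g n := (mul_le_mul_of_nonneg_left h7 h5.le).trans h4
    nlinarith

include hS hP in
/-- The case of large gaps, of polynomial size infinitely often. -/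
theorem case_pol (hsp : ∀ κ : ℕ, {n | n ∈ S ∧ nx S n ≤ κ * n}.Finite) {m : ℕ}
    (hm : {n | n ∈ S ∧ nx S n < n ^ (m + 1)}.Infinite) :
    ∃ (P : ℚ[X]) (E : Set ℕ), E.Finite ∧ {n | n ∈ S ∧ (nx S n : ℚ) = P.eval (n : ℚ)}.Infinite ∧
      ∀ i ∈ S, i ∉ E → ∃ m ∈ S, (m : ℚ) = P.eval (i : ℚ) := by
  classical
  obtain ⟨U, hUT, hU⟩ := exists_ultra hm
  have hUS : ∀ᶠ n in (U : Filter ℕ), n ∈ S := hUT.mono fun n hn => hn.1
  have hEf := exc_finite hS hP hU hUS
  set E := {i | i ∈ S ∧ ¬ ∀ᶠ n in (U : Filter ℕ), rs (nx S n) n i ∈ S} with hE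
  have hlarge : ∀ k : ℕ, ∀ᶠ n in (U : Filter ℕ), k ≤ n := fun k => hU (eventually_ge_atTop k)
  have hinf : (S \ E).Infinite := hS.sdiff hEf
  have hmem : ∀ i ∈ S \ E, ∀ᶠ n in (U : Filter ℕ), rs (nx S n) n i ∈ S := by
    intro i hi
    by_contra hcon
    exact hi.2 ⟨hi.1, hcon⟩
  set A : ℕ → ℚ[X] := fun n => dp (m + 1) n (nx S n) with hAdef
  set l : ℕ → ℕ → ℕ := fun i n => rs (nx S n) n i with hl
  -- the multiples of `n - i`
  have hu : ∀ i : ℕ, ∃ u : ℕ, ∀ᶠ n in (U : Filter ℕ),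
      eval (i : ℚ) (A n) = l i n + ((u : ℚ) - 2) * ((n : ℚ) - i) := by
    intro i
    set B := ∑ r ∈ Finset.range (m + 1), i ^ r with hB
    have h1 : ∀ᶠ n in (U : Filter ℕ), ∃ u : ℕ, u ≤ 2 * B + 2 ∧
        eval (i : ℚ) (A n) = l i n + ((u : ℚ) - 2) * ((n : ℚ) - i) := by
      filter_upwards [hUT, hlarge (2 * i + 1)] with n hn hi
      obtain ⟨t, ht⟩ := dp_residue (M := m + 1) (i := i) (show i < n by omega) hn.2 (lt_nx hS n)
      have h2 : (∑ r ∈ Finset.range (m + 1), (nx S n / n ^ r % n) * i ^ r : ℕ) ≤ n * B := by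
        rw [hB, Finset.mul_sum]
        apply Finset.sum_le_sum
        intro r _
        exact Nat.mul_le_mul_right _ (Nat.mod_lt _ (by omega)).le
      have h3 : rs (nx S n) n i < n := rs_lt (by omega)
      have h4 : (0 : ℤ) ≤ ((∑ r ∈ Finset.range (m + 1), (nx S n / n ^ r % n) * i ^ r : ℕ) : ℤ) :=
        by positivity
      have h5 : ((∑ r ∈ Finset.range (m + 1), (nx S n / n ^ r % n) * i ^ r : ℕ) : ℤ) ≤
          (n : ℤ) * B := by exact_mod_cast h2
      have h6 : (rs (nx S n) n i : ℤ) < n := by exact_mod_cast h3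
      have h7 : (n : ℤ) < 2 * ((n : ℤ) - i) := by
        have : ((2 * i + 1 : ℕ) : ℤ) ≤ n := by exact_mod_cast hi
        push_cast at this
        linarith
      have h8 : (0 : ℤ) < (n : ℤ) - i := by
        have : (i : ℤ) < n := by exact_mod_cast (show i < n by omega)
        linarith
      have h9 : -2 < t := by
        by_contra hcon
        push Not at hcon
        have : t * ((n : ℤ) - i) ≤ -2 * ((n : ℤ) - i) := mul_le_mul_of_nonneg_right hcon h8.le
        have h0 : (0 : ℤ) ≤ rs (nx S n) n i := by positivity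
        linarith
      have h10 : t ≤ 2 * B := by
        by_contra hcon
        push Not at hcon
        have h11 : (2 * (B : ℤ)) * ((n : ℤ) - i) < t * ((n : ℤ) - i) :=
          mul_lt_mul_of_pos_right hcon h8
        have h0 : (0 : ℤ) ≤ rs (nx S n) n i := by positivity
        have h12 : (n : ℤ) * B ≤ (2 * ((n : ℤ) - i)) * B :=
          mul_le_mul_of_nonneg_right h7.le (by positivity)
        nlinarith
      refine ⟨(t + 2).toNat, by omega, ?_⟩
      have h13 : (((t + 2).toNat : ℤ) : ℚ) = ((t + 2 : ℤ) : ℚ) := by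
        rw [Int.toNat_of_nonneg (by omega)]
      have h15 : eval (i : ℚ) (A n) =
          ((∑ r ∈ Finset.range (m + 1), (nx S n / n ^ r % n) * i ^ r : ℕ) : ℚ) := dp_eval _ _ _ _
      have h14 : (((∑ r ∈ Finset.range (m + 1), (nx S n / n ^ r % n) * i ^ r : ℕ) : ℤ) : ℚ) =
          ((rs (nx S n) n i + t * ((n : ℤ) - i) : ℤ) : ℚ) := by rw [ht]
      rw [Int.cast_natCast] at h13 h14
      rw [h15, h14, h13]
      push_cast
      ring
    have h2 : ∀ᶠ n in (U : Filter ℕ), ∃ u ∈ Set.Iic (2 * B + 2),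
        eval (i : ℚ) (A n) = l i n + ((u : ℚ) - 2) * ((n : ℚ) - i) :=
      h1.mono fun n ⟨u, hu, h⟩ => ⟨u, hu, h⟩
    rw [Ultrafilter.eventually_exists_mem_iff (Set.finite_Iic _)] at h2
    obtain ⟨u, -, hu⟩ := h2
    exact ⟨u, hu⟩
  choose u hu using hu
  set t : ℕ → ℚ := fun i => (u i : ℚ) - 2 with ht
  have hntop : Tendsto (fun n : ℕ => (n : ℚ)) U atTop :=
    tendsto_natCast_atTop_atTop.mono_left hU
  have hl0 : ∀ i ∈ S \ E, Tendsto (fun n => (l i n : ℚ) / (n : ℚ)) U (nhds 0) := by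
    intro i hi
    apply ratio_zero hsp (hmem i hi) hUS
    · filter_upwards [hlarge (i + 1)] with n hn
      exact rs_lt (by omega)
    · intro B
      filter_upwards [hlarge (B + 1)] with n hn
      omega
  have hA0 : ∀ i ∈ S \ E, Tendsto (fun n => eval (i : ℚ) (A n) / (n : ℚ)) U (nhds (t i)) := by
    intro i hi
    have h1 : Tendsto (fun n : ℕ => (l i n : ℚ) / (n : ℚ) + t i * (1 - (i : ℚ) / (n : ℚ))) U
        (nhds (0 + t i * (1 - 0))) := by
      apply (hl0 i hi).add
      apply tendsto_const_nhds.mul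
      apply tendsto_const_nhds.sub
      exact hntop.const_div_atTop _
    rw [zero_add, sub_zero, mul_one] at h1
    refine h1.congr' ?_
    filter_upwards [hu i, hlarge 1] with n h2 h3
    have h4 : (n : ℚ) ≠ 0 := by
      have : n ≠ 0 := by omega
      exact_mod_cast this
    rw [h2]
    field_simp
    simp only [ht]
    ring
  -- the interpolation polynomial of `t`
  obtain ⟨J, hJS, hJc⟩ := hinf.exists_subset_card_eq (m + 1)
  set τ : ℚ[X] := Lagrange.interpolate J (fun k : ℕ => (k : ℚ)) t with hτ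
  have hAdeg : ∀ n, (A n).natDegree ≤ m := fun n => dp_natDegree m n _
  have hτdeg : τ.natDegree ≤ m := by
    have hinj : Set.InjOn (fun k : ℕ => (k : ℚ)) (J : Set ℕ) := fun a _ b _ h => by
      simpa using h
    have h1 : τ.degree < (J.card : WithBot ℕ) := Lagrange.degree_interpolate_lt _ hinj
    rw [hJc] at h1
    rw [natDegree_le_iff_coeff_eq_zero]
    intro N hN
    apply coeff_eq_zero_of_degree_lt
    refine h1.trans_le ?_
    exact_mod_cast hN
  have hτev : ∀ i ∈ S \ E, eval (i : ℚ) τ = t i := by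
    intro i hi
    have h1 : Tendsto (fun n => ∑ j ∈ J, eval (j : ℚ) (A n) / (n : ℚ) *
        eval (i : ℚ) (Lagrange.basis J (fun k : ℕ => (k : ℚ)) j)) U
        (nhds (∑ j ∈ J, t j * eval (i : ℚ) (Lagrange.basis J (fun k : ℕ => (k : ℚ)) j))) := by
      apply tendsto_finsetSum
      intro j hj
      exact (hA0 j (hJS hj)).mul_const _
    rw [hτ, interp_eval]
    refine tendsto_nhds_unique h1 ?_
    refine (hA0 i hi).congr ?_
    intro n
    have hd : (A n).degree < J.card := by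
      rw [hJc]
      exact (degree_le_of_natDegree_le (hAdeg n)).trans_lt (by exact_mod_cast Nat.lt_succ_self m)
    rw [lag J (A n) hd (i : ℚ), Finset.sum_div]
    apply Finset.sum_congr rfl
    intro j _
    ring
  -- the polynomials with the values `l i n`
  set F : ℕ → ℚ[X] := fun n => A n - (C (n : ℚ) - X) * τ with hF
  have hFdeg : ∀ n, (F n).natDegree ≤ m + 1 := by
    intro n
    rw [hF]
    refine (natDegree_sub_le _ _).trans (max_le ((hAdeg n).trans (Nat.le_succ m)) ?_)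
    refine natDegree_mul_le.trans ?_
    have : (C (n : ℚ) - X).natDegree ≤ 1 :=
      (natDegree_sub_le _ _).trans (max_le (by simp) (by simp))
    omega
  have hFn : ∀ᶠ n : ℕ in (U : Filter ℕ), eval (n : ℚ) (F n) = nx S n := by
    filter_upwards [hUT] with n hn
    have h1 : eval (n : ℚ) (A n) = nx S n := dp_eval_self hn.2
    simp only [hF, eval_sub, eval_mul, eval_C, eval_X, sub_self, zero_mul, sub_zero]
    exact h1
  have hFi : ∀ i ∈ S \ E, ∀ᶠ n in (U : Filter ℕ), eval (i : ℚ) (F n) = l i n := by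
    intro i hi
    filter_upwards [hu i] with n hn
    simp only [hF, eval_sub, eval_mul, eval_C, eval_X]
    rw [hτev i hi, hn, ht]
    ring
  have hlagF : ∀ J' : Finset ℕ, J'.card = m + 2 → ∀ (n : ℕ) (x : ℚ), eval x (F n) =
      ∑ j ∈ J', eval (j : ℚ) (F n) *
        eval x (Lagrange.basis J' (fun k : ℕ => (k : ℚ)) j) := by
    intro J' hJ' n x
    apply lag
    rw [hJ']
    exact (degree_le_of_natDegree_le (hFdeg n)).trans_lt
      (by exact_mod_cast Nat.lt_succ_self (m + 1))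
  -- the residues are constant
  have hconst : ∀ i ∈ S \ E, ∃ c, ∀ᶠ n in (U : Filter ℕ), l i n = c := by
    intro i₀ hi₀
    rcases eventually_const_or U (l i₀) with h | hunb
    · exact h
    exfalso
    obtain ⟨G₀, hG₀S, hG₀c⟩ := hinf.exists_subset_card_eq (2 * m + 4)
    set G := insert i₀ G₀ with hG
    have hGS : ∀ i ∈ G, i ∈ S \ E := by
      intro i hi
      rcases Finset.mem_insert.1 hi with rfl | h
      · exact hi₀
      · exact hG₀S h
    have hGc : 2 * m + 4 ≤ G.card := by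
      rw [← hG₀c]
      exact Finset.card_le_card (Finset.subset_insert _ _)
    have hGne : G.Nonempty := ⟨i₀, Finset.mem_insert_self _ _⟩
    set s : ℕ → ℕ := fun n => G.sup (fun i => l i n) with hs
    have hle : ∀ i ∈ G, ∀ n, l i n ≤ s n := fun i hi n =>
      Finset.le_sup (f := fun i => l i n) hi
    have hex : ∀ n, ∃ i ∈ G, l i n = s n := by
      intro n
      obtain ⟨i, hi, h⟩ := Finset.exists_mem_eq_sup G hGne (fun i => l i n)
      exact ⟨i, hi, h.symm⟩
    have hsinf : ∀ B, ∀ᶠ n in (U : Filter ℕ), B < s n := fun B =>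
      (hunb B).mono fun n hn => hn.trans_le (hle i₀ (Finset.mem_insert_self _ _) n)
    have hlS : ∀ᶠ n in (U : Filter ℕ), ∀ i ∈ G, l i n ∈ S := by
      rw [Filter.eventually_all_finset]
      exact fun i hi => hmem i (hGS i hi)
    have hsS : ∀ᶠ n in (U : Filter ℕ), s n ∈ S := by
      filter_upwards [hlS] with n hn
      obtain ⟨i, hi, h⟩ := hex n
      rw [← h]
      exact hn i hi
    set T := G.filter (fun i => ∀ᶠ n in (U : Filter ℕ), l i n = s n) with hT
    set ρ : ℕ → ℚ := fun i => if i ∈ T then 1 else 0 with hρ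
    have hTne : T.Nonempty := by
      have h1 : ∀ᶠ n in (U : Filter ℕ), ∃ i ∈ (G : Set ℕ), l i n = s n :=
        Eventually.of_forall fun n => hex n
      rw [Ultrafilter.eventually_exists_mem_iff G.finite_toSet] at h1
      obtain ⟨i, hi, h⟩ := h1
      exact ⟨i, Finset.mem_filter.2 ⟨hi, h⟩⟩
    have hlim : ∀ i ∈ G, Tendsto (fun n => (l i n : ℚ) / (s n : ℚ)) U (nhds (ρ i)) := by
      intro i hi
      by_cases hiT : i ∈ T
      · have h1 : ρ i = 1 := by rw [hρ]; simp [hiT]
        rw [h1]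
        refine tendsto_const_nhds.congr' ?_
        filter_upwards [(Finset.mem_filter.1 hiT).2, hsinf 0] with n h2 h3
        rw [h2, div_self]
        have : s n ≠ 0 := by omega
        exact_mod_cast this
      · have h1 : ρ i = 0 := by rw [hρ]; simp [hiT]
        rw [h1]
        apply ratio_zero hsp (hmem i (hGS i hi)) hsS _ hsinf
        have h2 : ∀ᶠ n in (U : Filter ℕ), ¬ l i n = s n := by
          rw [Ultrafilter.eventually_not]
          intro h3
          exact hiT (Finset.mem_filter.2 ⟨hi, h3⟩)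
        filter_upwards [h2] with n hn
        exact lt_of_le_of_ne (hle i hi n) hn
    have hρeq : ∀ J' ⊆ G, J'.card = m + 2 → ∀ i ∈ G, ρ i = ∑ j ∈ J', ρ j *
        eval (i : ℚ) (Lagrange.basis J' (fun k : ℕ => (k : ℚ)) j) := by
      intro J' hJ' hc i hi
      have h1 : Tendsto (fun n => ∑ j ∈ J', (l j n : ℚ) / (s n : ℚ) *
          eval (i : ℚ) (Lagrange.basis J' (fun k : ℕ => (k : ℚ)) j)) U
          (nhds (∑ j ∈ J', ρ j * eval (i : ℚ) (Lagrange.basis J' (fun k : ℕ => (k : ℚ)) j))) := by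
        apply tendsto_finsetSum
        intro j hj
        exact (hlim j (hJ' hj)).mul_const _
      refine tendsto_nhds_unique (hlim i hi) (h1.congr' ?_)
      have h2 : ∀ᶠ n in (U : Filter ℕ), ∀ i ∈ G, eval (i : ℚ) (F n) = l i n := by
        rw [Filter.eventually_all_finset]
        exact fun i hi => hFi i (hGS i hi)
      filter_upwards [h2] with n hn
      rw [← hn i hi, hlagF J' hc n i, Finset.sum_div]
      apply Finset.sum_congr rfl
      intro j hj
      rw [hn j (hJ' hj)]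
      ring
    have hTG : ∀ i ∈ G, i ∈ T := by
      intro i hi
      have hTsub : T ⊆ G := Finset.filter_subset _ _
      by_cases hTc : m + 2 ≤ T.card
      · obtain ⟨J', hJ', hc⟩ := Finset.exists_subset_card_eq hTc
        have h1 := hρeq J' (hJ'.trans hTsub) hc i hi
        have h2 : ∑ j ∈ J', ρ j * eval (i : ℚ) (Lagrange.basis J' (fun k : ℕ => (k : ℚ)) j) =
            1 := by
          rw [← basis_sum J' (Finset.card_pos.1 (by omega)) (i : ℚ)]
          apply Finset.sum_congr rfl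
          intro j hj
          have : ρ j = 1 := by rw [hρ]; simp [hJ' hj]
          rw [this, one_mul]
        rw [h2] at h1
        by_contra h3
        have : ρ i = 0 := by rw [hρ]; simp [h3]
        rw [this] at h1
        exact zero_ne_one h1
      · exfalso
        have hc' : m + 2 ≤ (G \ T).card := by
          rw [Finset.card_sdiff_of_subset hTsub]
          omega
        obtain ⟨J', hJ', hc⟩ := Finset.exists_subset_card_eq hc'
        obtain ⟨k, hk⟩ := hTne
        have h1 := hρeq J' (hJ'.trans Finset.sdiff_subset) hc k (hTsub hk)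
        have h2 : ∑ j ∈ J', ρ j * eval (k : ℚ) (Lagrange.basis J' (fun k : ℕ => (k : ℚ)) j) =
            0 := by
          apply Finset.sum_eq_zero
          intro j hj
          have : ρ j = 0 := by
            rw [hρ]
            simp [(Finset.mem_sdiff.1 (hJ' hj)).2]
          rw [this, zero_mul]
        have h3 : ρ k = 1 := by rw [hρ]; simp [hk]
        rw [h2, h3] at h1
        exact one_ne_zero h1
    obtain ⟨J', hJ', hc⟩ := Finset.exists_subset_card_eq (show m + 2 ≤ G.card by omega)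
    have h2 : ∀ᶠ n in (U : Filter ℕ), ∀ i ∈ G, eval (i : ℚ) (F n) = l i n := by
      rw [Filter.eventually_all_finset]
      exact fun i hi => hFi i (hGS i hi)
    have h3 : ∀ᶠ n in (U : Filter ℕ), ∀ i ∈ G, l i n = s n := by
      rw [Filter.eventually_all_finset]
      exact fun i hi => (Finset.mem_filter.1 (hTG i hi)).2
    obtain ⟨n, ⟨⟨h4, h5⟩, h6⟩, h7⟩ := (((h2.and h3).and hFn).and (hlarge (i₀ + 1))).exists
    have h8 : eval (n : ℚ) (F n) = s n := by
      rw [hlagF J' hc n n]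
      have h9 : ∀ j ∈ J', eval (j : ℚ) (F n) *
          eval (n : ℚ) (Lagrange.basis J' (fun k : ℕ => (k : ℚ)) j) = s n *
          eval (n : ℚ) (Lagrange.basis J' (fun k : ℕ => (k : ℚ)) j) := by
        intro j hj
        rw [h4 j (hJ' hj), h5 j (hJ' hj)]
      rw [Finset.sum_congr rfl h9, ← Finset.mul_sum,
        basis_sum J' (Finset.card_pos.1 (by omega)), mul_one]
    rw [h6] at h8
    have h9 : nx S n = s n := by exact_mod_cast h8
    have h10 := h5 i₀ (Finset.mem_insert_self _ _)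
    have h11 : rs (nx S n) n i₀ < n := rs_lt (by omega)
    have h12 := lt_nx hS n
    have h13 : l i₀ n = rs (nx S n) n i₀ := rfl
    omega
  -- the polynomial
  obtain ⟨J', hJ'S, hJ'c⟩ := hinf.exists_subset_card_eq (m + 2)
  have hcJ : ∀ i : ℕ, ∃ c : ℕ, i ∈ S \ E → ∀ᶠ n in (U : Filter ℕ), l i n = c := by
    intro i
    by_cases hi : i ∈ S \ E
    · obtain ⟨c, hc⟩ := hconst i hi
      exact ⟨c, fun _ => hc⟩
    · exact ⟨0, fun h => absurd h hi⟩
  choose c hc using hcJ
  set P : ℚ[X] := Lagrange.interpolate J' (fun k : ℕ => (k : ℚ)) (fun j => (c j : ℚ)) with hPdef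
  have hPF : ∀ᶠ n in (U : Filter ℕ), ∀ x : ℚ, eval x (F n) = eval x P := by
    have h2 : ∀ᶠ n in (U : Filter ℕ), ∀ i ∈ J', eval (i : ℚ) (F n) = l i n := by
      rw [Filter.eventually_all_finset]
      exact fun i hi => hFi i (hJ'S hi)
    have h3 : ∀ᶠ n in (U : Filter ℕ), ∀ i ∈ J', l i n = c i := by
      rw [Filter.eventually_all_finset]
      exact fun i hi => hc i (hJ'S hi)
    filter_upwards [h2, h3] with n h4 h5 x
    rw [hlagF J' hJ'c n x, hPdef, interp_eval]
    apply Finset.sum_congr rfl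
    intro j hj
    rw [h4 j hj, h5 j hj]
  refine ⟨P, E, hEf, ?_, ?_⟩
  · apply infinite_of_eventually hU
    filter_upwards [hUS, hPF, hFn] with n h1 h2 h3
    exact ⟨h1, by rw [← h2, h3]⟩
  · intro i hi hiE
    have hi' : i ∈ S \ E := ⟨hi, hiE⟩
    obtain ⟨n, ⟨h1, h2⟩, h3⟩ := ((hPF.and (hFi i hi')).and (hmem i hi')).exists
    exact ⟨l i n, h3, by rw [← h1, h2]⟩

theorem pol_tendsto {Q : ℚ[X]} (h : 0 < Q.degree) (h' : 0 ≤ Q.leadingCoeff) :
    Tendsto (fun n : ℕ => eval (n : ℚ) Q) atTop atTop :=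
  (Q.tendsto_atTop_of_leadingCoeff_nonneg h h').comp tendsto_natCast_atTop_atTop

theorem pol_tendsto_bot {Q : ℚ[X]} (h : 0 < Q.degree) (h' : Q.leadingCoeff ≤ 0) :
    Tendsto (fun n : ℕ => eval (n : ℚ) Q) atTop atBot :=
  (Q.tendsto_atBot_of_leadingCoeff_nonpos h h').comp tendsto_natCast_atTop_atTop

/-- A polynomial which tends to infinity is eventually monotone. -/
theorem pol_mono {Q : ℚ[X]} (hQ : Tendsto (fun n : ℕ => eval (n : ℚ) Q) atTop atTop) :
    ∃ N : ℕ, ∀ n : ℕ, N ≤ n → eval (n : ℚ) Q ≤ eval ((n + 1 : ℕ) : ℚ) Q := by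
  set R : ℚ[X] := Q.comp (X + C 1) - Q with hR
  have hRe : ∀ n : ℕ, eval (n : ℚ) R = eval ((n + 1 : ℕ) : ℚ) Q - eval (n : ℚ) Q := by
    intro n
    rw [hR, eval_sub, eval_comp]
    simp
  have key : (∃ N : ℕ, ∀ n : ℕ, N ≤ n → 0 ≤ eval (n : ℚ) R) ∨
      ∃ N : ℕ, ∀ n : ℕ, N ≤ n → eval (n : ℚ) R < 0 := by
    by_cases hd : 0 < R.degree
    · rcases le_total 0 R.leadingCoeff with h | h
      · left
        exact eventually_atTop.1 ((pol_tendsto hd h).eventually_ge_atTop 0)
      · right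
        exact eventually_atTop.1 ((pol_tendsto_bot hd h).eventually_lt_atBot 0)
    · rw [eq_C_of_degree_le_zero (not_lt.1 hd)]
      rcases le_or_gt 0 (R.coeff 0) with h | h
      · left; exact ⟨0, fun n _ => by simpa using h⟩
      · right; exact ⟨0, fun n _ => by simpa using h⟩
  rcases key with ⟨N, hN⟩ | ⟨N, hN⟩
  · refine ⟨N, fun n hn => ?_⟩
    have := hN n hn
    rw [hRe] at this
    linarith
  · exfalso
    have h1 : ∀ k : ℕ, eval ((N + k : ℕ) : ℚ) Q ≤ eval (N : ℚ) Q := by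
      intro k
      induction k with
      | zero => simp
      | succ k ih =>
        have := hN (N + k) (Nat.le_add_right _ _)
        rw [hRe] at this
        have h2 : N + (k + 1) = N + k + 1 := rfl
        rw [h2]
        linarith
    obtain ⟨K, hK⟩ := eventually_atTop.1 (hQ.eventually_gt_atTop (eval (N : ℚ) Q))
    have h2 := hK (N + K) (Nat.le_add_left _ _)
    have h3 := h1 K
    linarith

include hS h0 in
/-- The set is eventually one orbit. -/
theorem orbit {P : ℚ[X]} {E : Set ℕ} (hE : E.Finite)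
    (hinf : {n | n ∈ S ∧ (nx S n : ℚ) = P.eval (n : ℚ)}.Infinite)
    (hPE : ∀ i ∈ S, i ∉ E → ∃ m ∈ S, (m : ℚ) = P.eval (i : ℚ)) :
    ∃ n₁, ∀ n ∈ S, n₁ ≤ n → (nx S n : ℚ) = P.eval (n : ℚ) := by
  classical
  set Q : ℚ[X] := P - X with hQ
  have hQe : ∀ n : ℕ, eval (n : ℚ) Q = eval (n : ℚ) P - n := by
    intro n; rw [hQ]; simp
  have hpos : ∀ n ∈ S, (nx S n : ℚ) = P.eval (n : ℚ) → 0 < eval (n : ℚ) Q := by
    intro n _ h
    rw [hQe, ← h]
    have : (n : ℚ) < nx S n := by exact_mod_cast lt_nx hS n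
    linarith
  have hdeg : 0 < Q.degree := by
    by_contra hd
    have hc := eq_C_of_degree_le_zero (not_lt.1 hd)
    obtain ⟨n, hn, hn'⟩ := hinf.nonempty
    have h1 := hpos n hn hn'
    set D := nx S n - n with hD
    have hDpos : 0 < D := by
      have := lt_nx hS n
      omega
    have hDc : ((D : ℕ) : ℚ) = Q.coeff 0 := by
      have h2 : eval (n : ℚ) Q = Q.coeff 0 := by rw [hc]; simp
      rw [← h2, hQe, ← hn', hD, Nat.cast_sub (lt_nx hS n).le]
    apply hinf
    refine (h0 D hDpos).subset ?_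
    rintro k ⟨hk, hk'⟩
    refine ⟨hk, ?_⟩
    have h3 : eval (k : ℚ) Q = Q.coeff 0 := by rw [hc]; simp
    rw [hQe, ← hk', ← hDc] at h3
    have h4 : nx S k = k + D := by
      have : (nx S k : ℚ) = ((k + D : ℕ) : ℚ) := by push_cast; linarith
      exact_mod_cast this
    rw [← h4]
    exact nx_mem hS k
  have hlc : 0 ≤ Q.leadingCoeff := by
    by_contra hl
    have h1 := pol_tendsto_bot hdeg (not_le.1 hl).le
    obtain ⟨N, hN⟩ := eventually_atTop.1 (h1.eventually_lt_atBot 0)
    obtain ⟨n, ⟨hn, hn'⟩, hNn⟩ := hinf.exists_gt N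
    exact absurd (hpos n hn hn') (not_lt.2 (hN n hNn.le).le)
  have htop := pol_tendsto hdeg hlc
  obtain ⟨N₁, hN₁⟩ := pol_mono htop
  obtain ⟨N₂, hN₂⟩ := eventually_atTop.1 (htop.eventually_gt_atTop 0)
  obtain ⟨b, hb⟩ := hE.bddAbove
  set N := max (max N₁ N₂) (b + 1) with hN
  have hchoice : ∀ i : ℕ, ∃ m : ℕ, i ∈ S → N ≤ i → m ∈ S ∧ (m : ℚ) = P.eval (i : ℚ) := by
    intro i
    by_cases hi : i ∈ S ∧ N ≤ i
    · have hiE : i ∉ E := by
        intro h
        have := hb h
        have h2 : b + 1 ≤ N := le_max_right _ _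
        omega
      obtain ⟨m, hm, hm'⟩ := hPE i hi.1 hiE
      exact ⟨m, fun _ _ => ⟨hm, hm'⟩⟩
    · exact ⟨0, fun h1 h2 => absurd ⟨h1, h2⟩ hi⟩
  choose p hp using hchoice
  have hplt : ∀ i ∈ S, N ≤ i → i < p i := by
    intro i hi hNi
    have h1 := hN₂ i (le_trans (le_trans (le_max_right _ _) (le_max_left _ _)) hNi)
    rw [hQe, ← (hp i hi hNi).2] at h1
    have : (i : ℚ) < p i := by linarith
    exact_mod_cast this
  have hstep : ∀ a k : ℕ, N ≤ a → eval (a : ℚ) P + k ≤ eval ((a + k : ℕ) : ℚ) P := by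
    intro a k ha
    induction k with
    | zero => simp
    | succ k ih =>
      have h1 := hN₁ (a + k) (by
        have : N₁ ≤ N := le_trans (le_max_left _ _) (le_max_left _ _)
        omega)
      rw [hQe, hQe] at h1
      have h2 : a + (k + 1) = a + k + 1 := rfl
      rw [h2]
      push_cast at h1 ih ⊢
      linarith
  have hmono : ∀ i ∈ S, ∀ j ∈ S, N ≤ i → i < j → p i < p j := by
    intro i hi j hj hNi hij
    have h1 := hstep i (j - i) hNi
    rw [show i + (j - i) = j by omega, ← (hp i hi hNi).2, ← (hp j hj (by omega)).2] at h1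
    have h2 : ((1 : ℕ) : ℚ) ≤ ((j - i : ℕ) : ℚ) := by
      exact_mod_cast (show 1 ≤ j - i by omega)
    have : (p i : ℚ) < p j := by
      push_cast at h2 h1
      linarith
    exact_mod_cast this
  have hit : ∀ i ∈ S, N ≤ i → ∀ r, p^[r] i ∈ S ∧ i + r ≤ p^[r] i := by
    intro i hi hNi r
    induction r with
    | zero => exact ⟨hi, le_rfl⟩
    | succ r ih =>
      rw [Function.iterate_succ_apply']
      refine ⟨(hp _ ih.1 (by omega)).1, ?_⟩
      have := hplt _ ih.1 (by omega)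
      omega
  refine ⟨N, fun s hs hNs => ?_⟩
  rw [← (hp s hs hNs).2]
  have hle : nx S s ≤ p s := nx_le (hp s hs hNs).1 (hplt s hs hNs)
  rcases hle.lt_or_eq with hlt | heq
  swap
  · rw [heq]
  exfalso
  set v := nx S s with hv
  have hvS : v ∈ S := nx_mem hS s
  have hsv : s < v := lt_nx hS s
  have hNv : N ≤ v := by omega
  have hab : ∀ r, p^[r] s < p^[r] v ∧ p^[r] v < p^[r + 1] s := by
    intro r
    induction r with
    | zero => exact ⟨hsv, hlt⟩
    | succ r ih =>
      rw [Function.iterate_succ_apply' p r s, Function.iterate_succ_apply' p r v,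
        Function.iterate_succ_apply' p (r + 1) s]
      have h1 := hit s hs hNs r
      have h2 := hit v hvS hNv r
      have h3 := hit s hs hNs (r + 1)
      exact ⟨hmono _ h1.1 _ h2.1 (by omega) ih.1, hmono _ h2.1 _ h3.1 (by omega) ih.2⟩
  obtain ⟨n, ⟨hn, hn'⟩, hsn⟩ := hinf.exists_gt s
  have hnp : nx S n = p n := by
    have : (nx S n : ℚ) = p n := by rw [hn', (hp n hn (by omega)).2]
    exact_mod_cast this
  have hex : ∃ r, n < p^[r + 1] s := ⟨n, by
    have := (hit s hs hNs (n + 1)).2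
    omega⟩
  obtain ⟨r, hr, hr'⟩ : ∃ r, p^[r] s ≤ n ∧ n < p^[r + 1] s := by
    refine ⟨Nat.find hex, ?_, Nat.find_spec hex⟩
    rcases Nat.eq_zero_or_pos (Nat.find hex) with h | h
    · rw [h]
      exact hsn.le
    · have := Nat.find_min hex (m := Nat.find hex - 1) (by omega)
      rw [show Nat.find hex - 1 + 1 = Nat.find hex by omega] at this
      omega
  have h1 := hit s hs hNs r
  have h3 := hit s hs hNs (r + 1)
  rcases hr.lt_or_eq with h4 | h4
  · have h5 := hmono _ h1.1 _ hn (by omega) h4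
    have h5' : p^[r + 1] s < p n := by
      rw [Function.iterate_succ_apply' p r s]
      exact h5
    have h6 := nx_le h3.1 hr'
    omega
  · have h5 : p n = p^[r + 1] s := by rw [Function.iterate_succ_apply', h4]
    have h6 := (hab r)
    rw [h4] at h6
    have h7 := nx_le (hit v hvS hNv r).1 h6.1
    omega

include hS h0 hP in
/-- The structure theorem: superpolynomial gaps, or eventually one orbit of one polynomial. -/
theorem comb : (∀ M : ℕ, ∃ n₁, ∀ n ∈ S, ∀ n' ∈ S, n₁ ≤ n → n < n' → n ^ M ≤ n') ∨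
    ∃ (P : ℚ[X]) (n₁ : ℕ), ∀ n ∈ S, n₁ ≤ n → (nx S n : ℚ) = P.eval (n : ℚ) := by
  by_cases h1 : ∃ κ : ℕ, {n | n ∈ S ∧ nx S n ≤ κ * n}.Infinite
  · right
    obtain ⟨κ, hκ⟩ := h1
    obtain ⟨P, E, hE, hinf, hPE⟩ := case_lin hS h0 hP hκ
    exact ⟨P, orbit hS h0 hE hinf hPE⟩
  have hsp : ∀ κ : ℕ, {n | n ∈ S ∧ nx S n ≤ κ * n}.Finite := fun κ =>
    Set.not_infinite.1 (not_exists.1 h1 κ)
  by_cases h2 : ∃ m : ℕ, {n | n ∈ S ∧ nx S n < n ^ (m + 1)}.Infinite
  · right
    obtain ⟨m, hm⟩ := h2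
    obtain ⟨P, E, hE, hinf, hPE⟩ := case_pol hS hP hsp hm
    exact ⟨P, orbit hS h0 hE hinf hPE⟩
  left
  intro M
  have hf : {n | n ∈ S ∧ nx S n < n ^ (M + 1)}.Finite := Set.not_infinite.1 (not_exists.1 h2 M)
  obtain ⟨b, hb⟩ := hf.bddAbove
  refine ⟨b + 1, fun n hn n' hn' hbn hnn' => ?_⟩
  have h3 : ¬ nx S n < n ^ (M + 1) := by
    intro h
    have := hb ⟨hn, h⟩
    omega
  have h4 := nx_le hn' hnn'
  have h5 : n ^ M ≤ n ^ (M + 1) := Nat.pow_le_pow_right (by omega) (Nat.le_succ M)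
  omega

end main

end Pool.Agent.Helper59.LS
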